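import Pool.Agent.H8.AF.Num

/-!
# Siegel's theorem for all curves with a given field at infinity, up to one window for each real
# conjugate of the field

Let `n ≥ 3` and let `k` be a number field of degree at least three. There is a set `S` of at most
as many natural numbers as `ℝ` has subfields isomorphic to `k`, with the following property. Let `F` in
`ℤ[x,y]` be irreducible over `ℚ`, of total degree at most `n`, such that every point at infinity of the
curve `F = 0` whose residue field `K` has a real embedding satisfies `k ⊆ K`; that is, for every number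
field `K` with a real embedding and all `X, Y` in `K((t))` with `F(X,Y) = 0`, either `X, Y` are in
`K[[t]]` or `k` embeds in `K`. Let `H ≥ 2` bound the absolute values of all coefficients of `F`. Then
every integer point `(x,y)` of `F = 0` satisfies `max(|x|,|y|) ≤ H^(2^((2n^2)!))`, or
`M ≤ max(|x|,|y|) ≤ M^(14000 n^8)` for some `M` in `S`.
-/

namespace Pool.Agent.H98.Old.AllCurves

open MvPolynomial

/-- All integer points above the explicit polynomial bound, on all curves of degree at most `n` whose
real points at infinity have residue field containing `k`, lie in at most as many windows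
`[M, M^(14000 n^8)]` as `ℝ` has subfields isomorphic to `k`. -/
theorem result (n : ℕ) (hn : 3 ≤ n) (k : Type) [Field k] [NumberField k]
    (hk : 3 ≤ Module.finrank ℚ k) :
    ∃ S : Finset ℕ, S.card ≤ Set.ncard {K : Subfield ℝ | Nonempty (k ≃+* K)} ∧
      ∀ (F : MvPolynomial (Fin 2) ℤ) (H : ℕ), F.totalDegree ≤ n →
        Irreducible (map (Int.castRingHom ℚ) F) →
        (∀ (K : Type) [Field K] [NumberField K], Nonempty (K →+* ℝ) →
          ∀ X Y : LaurentSeries K, eval₂ (Int.castRingHom (LaurentSeries K)) ![X, Y] F = 0 →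
            (X ∈ (HahnSeries.ofPowerSeries ℤ K).range ∧
              Y ∈ (HahnSeries.ofPowerSeries ℤ K).range) ∨ Nonempty (k →+* K)) →
        2 ≤ H → (∀ m, |coeff m F| ≤ (H : ℤ)) →
        ∀ x y : ℤ, eval ![x, y] F = 0 →
          max |x| |y| ≤ (H : ℤ) ^ (2 ^ (2 * n ^ 2).factorial) ∨
            ∃ M ∈ S, (M : ℤ) ≤ max |x| |y| ∧ max |x| |y| ≤ (M : ℤ) ^ (14000 * n ^ 8) := by
  obtain ⟨S, hS, h⟩ := Pool.Agent.H8.AF.all_curves k hk n hn
  refine ⟨S, hS, ?_⟩
  intro F H hdeg hirr hinf hH2 hH x y h0
  have hm : max |x| |y| = ((max x.natAbs y.natAbs : ℕ) : ℤ) := by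
    rw [Int.abs_eq_natAbs, Int.abs_eq_natAbs]
    push_cast
    rfl
  have hv : Pool.Agent.H34.AC.vl F x y = 0 := by
    have h1 : Pool.Agent.H34.AC.vl F x y = eval ![x, y] F := by
      unfold Pool.Agent.H34.AC.vl
      rw [← eval₂_id]
      congr 1
    rw [h1, h0]
  rcases h F hirr hdeg hinf H hH2 hH x y hv with h1 | ⟨M, hM, h1, h2⟩
  · left
    rw [hm]
    have h2 : max x.natAbs y.natAbs ≤ H ^ (2 ^ (2 * n ^ 2).factorial) :=
      h1.trans (Nat.pow_le_pow_right (by omega) (Pool.Agent.H8.AF.cF_le hn))
    exact_mod_cast h2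
  · right
    refine ⟨M, hM, ?_, ?_⟩
    · rw [hm]
      exact_mod_cast h1
    · rw [hm]
      have h3 : max x.natAbs y.natAbs ≤ M ^ (14000 * n ^ 8) := by
        rcases Nat.eq_zero_or_pos M with rfl | hM1
        · have h4 : 0 < Pool.Agent.H8.AF.wF n := by
            unfold Pool.Agent.H8.AF.wF
            positivity
          rw [zero_pow h4.ne'] at h2
          exact h2.trans (Nat.zero_le _)
        · exact h2.trans (Nat.pow_le_pow_right hM1 (Pool.Agent.H8.AF.wF_le hn))
      exact_mod_cast h3

end Pool.Agent.H98.Old.AllCurves
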