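import Pool.Agent.H98.PK.Fin

/-!
For every `ε > 0` a positive proportion of the `k ≤ K` has the expected order of magnitude of primes `m ^ 3 + k`, `m ≤ M`,
for all `M` from `log K` up to `K ^ (1 - ε)`.
-/

namespace Pool.Agent.H98.Old.PositiveProportion4d57ea

open Finset

theorem result : ∀ ε : ℝ, 0 < ε → ∃ c : ℝ, 0 < c ∧ ∃ K₀ : ℕ, ∀ K M : ℕ, K₀ ≤ K →
    Real.log K ≤ M → (M : ℝ) ≤ (K : ℝ) ^ (1 - ε) →
    c * K ≤ (((Icc 1 K).filter fun k =>
      c * (M / Real.log K) ≤ (((Icc 1 M).filter fun m => (m ^ 3 + k).Prime).card : ℝ)).card : ℝ) := by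
  intro ε hε
  obtain ⟨c, hc, K0, h⟩ := Pool.Agent.H98.PK.fin_thm ε hε
  exact ⟨c, hc, K0, fun K M hK h1 h2 => h K hK M h1 h2⟩

end Pool.Agent.H98.Old.PositiveProportion4d57ea
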