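import Pool.Agent.H98.PolarSing2

/-!
Levy collapse and the unbalanced polarized relation at a singular cardinal.
-/

open Cardinal Ordinal Set Pool.Agent.H98.Polar

namespace Pool.Agent.Results.MP_e35e92_lc.SingularCofinality

theorem result (κ : Cardinal.{0}) (hcof : ℵ₀ < κ.ord.cof) (hsing : κ.ord.cof < κ)
    (hκ : κ < continuum.{0}) (hr : κ.ord.cof = ℵ₁ ∨ κ.ord.cof ≤ rNumber) :
    (∃ c : SetName (Levy κ continuum.{0}) (κ.ord.ToType × ℕ),
      ∀ (β : Ordinal.{0}) (ε : Bool), κ.ord.cof ≤ β.card → ∀ p, fNot (fHom κ β ε c) p) ∧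
    ∀ α : Ordinal.{0}, κ.ord.cof ≤ α.card →
      ∀ p : Levy κ continuum.{0}, fNot (fUnbalanced κ α) p := by
  have hr : κ.ord.cof ≤ rNumber := by
    rcases hr with h | h
    · rw [h]
      exact aleph_one_le_rNumber
    · exact h
  obtain ⟨c, hc⟩ := no_hom rfl hcof hsing hκ.le hr
  refine ⟨⟨c, fun β ε hβ p q _ => hc β ε hβ q⟩, fun α hα p q _ hcon => ?_⟩
  obtain ⟨r, _, h | h⟩ := hcon c q le_rfl
  · exact hc _ _ (by rw [card_ord]; exact hsing.le) r h
  · exact hc _ _ hα r h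

end Pool.Agent.Results.MP_e35e92_lc.SingularCofinality
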